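import Pool.Agent.helper74.FD.SpecF

/-! # Project FD, row PRF: porous sets -/

set_option autoImplicit false

open MeasureTheory Filter Set
open scoped ContDiff Topology ComplexConjugate

namespace Pool.Agent.FD

theorem PRF_proof : PRF_stmt := by
  refine ⟨?_, ?_, ?_, ?_, ?_, ?_, ?_, ?_, ?_⟩
  · intro ν L β X hν hL hβ h a b hab
    have h1 : L ≤ b - a := (le_max_left _ _).trans hab
    have h2 : 4 * β ≤ ν * (b - a) := by
      have h3 := (le_max_right L (4 * β / ν)).trans hab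
      rw [div_le_iff₀ hν] at h3
      linarith
    obtain ⟨c, hc1, hc2, hc3⟩ := h a b h1
    refine ⟨c + β, by linarith, by linarith, ?_⟩
    rintro y ⟨x, hx, hxy⟩ ⟨h4, h5⟩
    rw [abs_le] at hxy
    exact hc3 x hx ⟨by linarith [hxy.2], by linarith [hxy.1]⟩
  · intro ν L s X hs h a b hab
    have h1 : L ≤ b / s - a / s := by
      rw [← sub_div, le_div_iff₀ hs]
      linarith
    obtain ⟨c, hc1, hc2, hc3⟩ := h (a / s) (b / s) h1
    have e1 : s * (b / s - a / s) = b - a := by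
      field_simp
    have e2 : s * (ν * (b / s - a / s)) = ν * (b - a) := by
      rw [← e1]
      ring
    refine ⟨s * c, ?_, ?_, ?_⟩
    · rw [div_le_iff₀ hs] at hc1
      linarith
    · rw [le_div_iff₀ hs] at hc2
      nlinarith
    · rintro y ⟨x, hx, rfl⟩ ⟨h4, h5⟩
      refine hc3 x hx ⟨le_of_mul_le_mul_left h4 hs, le_of_mul_le_mul_left ?_ hs⟩
      rw [mul_add, e2]
      exact h5
  · intro ν L t X h a b hab
    obtain ⟨c, hc1, hc2, hc3⟩ := h (a + t) (b + t) (by linarith)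
    have e : b + t - (a + t) = b - a := by ring
    rw [e] at hc2 hc3
    refine ⟨c - t, by linarith, by linarith, ?_⟩
    rintro y hy ⟨h4, h5⟩
    exact hc3 (y + t) hy ⟨by linarith, by linarith⟩
  · intro ν L X h a b hab
    obtain ⟨c, hc1, hc2, hc3⟩ := h (-b) (-a) (by linarith)
    have e : -a - -b = b - a := by ring
    rw [e] at hc2 hc3
    refine ⟨-(c + ν * (b - a)), by linarith, by linarith, ?_⟩
    rintro y hy ⟨h4, h5⟩
    exact hc3 (-y) hy ⟨by linarith, by linarith⟩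
  · intro ν ν' L L' X X' hν' hνν hL hLL hXX h a b hab
    obtain ⟨c, hc1, hc2, hc3⟩ := h a b (hLL.trans hab)
    have h1 : ν' * (b - a) ≤ ν * (b - a) :=
      mul_le_mul_of_nonneg_right hνν (by linarith)
    exact ⟨c, hc1, by linarith, fun x hx h2 => hc3 x (hXX hx) ⟨h2.1, by linarith [h2.2]⟩⟩
  · rintro β s X ⟨R, hR⟩
    refine ⟨⟨R + β, ?_⟩, ⟨|s| * R, ?_⟩⟩
    · rintro y ⟨x, hx, hxy⟩
      have h1 := hR x hx
      have h2 := abs_add_le (y - x) x
      rw [sub_add_cancel] at h2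
      linarith
    · rintro y ⟨x, hx, rfl⟩
      rw [abs_mul]
      exact mul_le_mul_of_nonneg_left (hR x hx) (abs_nonneg s)
  · rintro β β' X y ⟨x, ⟨z, hz, hxz⟩, hyx⟩
    refine ⟨z, hz, ?_⟩
    have h2 := abs_add_le (y - x) (x - z)
    rw [sub_add_sub_cancel] at h2
    linarith
  · rintro β β' X X' hβ hX y ⟨x, hx, hxy⟩
    exact ⟨x, hX hx, hxy.trans hβ⟩
  · rintro s β X hs y ⟨x, ⟨z, hz, hxz⟩, rfl⟩
    refine ⟨s * z, ⟨z, hz, rfl⟩, ?_⟩
    rw [← mul_sub, abs_mul, abs_of_pos hs]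
    exact mul_le_mul_of_nonneg_left hxz hs.le

end Pool.Agent.FD
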